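import Pool.Agent.Helper867_EX.AbMain

/-!
# Bloch's conjecture for correspondences, after exterior multiplication with a zero-cycle

`𝒱` is a class of smooth projective irreducible varieties closed under products (for the
problem: all complex ones), `C` the Chow groups with rational coefficients and `H` a Weil cohomology
theory, in the form of their formal properties. For correspondences between complex surfaces
dominated by an abelian surface, to be homologically equivalent to a degenerate one (a sum of
correspondences which factor through curves) is the same as to act as zero on the holomorphic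
two-forms, by the theorem of Lefschetz on classes of type `(1, 1)`.

Let `A` be an abelian surface whose self-correspondences form a field `E` modulo the ones which are
homologically equivalent to degenerate ones. (Over `ℂ` this is a theorem; `E` is the field of the
endomorphisms of the transcendental Hodge structure `T(A)` which are induced by correspondences.)

**Theorem.**

1. If `X` is dominated by `A`, then `β × α = α × β` in `CH_0(X × X)_ℚ` for all `α`, `β` in the Albanese
  kernel (Voisin).
2. Let `X` be a surface with the property of 1. (for example one of the K3 surfaces for which the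
  conjecture of Voisin is known). Then `Z_* α × β = α × Z_* β` for all `Z ∈ CH^2(X × X)_ℚ`, and
  `α × (Z W - W Z)_* β = 0` for all `Z`, `W ∈ CH^2(X × X)_ℚ`. (If `p_g(X) = 1`, then `Z W - W Z` acts as
  zero on `H^{2,0}(X)`, so the conjecture of Bloch predicts `(Z W - W Z)_* β = 0`.)
3. Suppose that `E` is not totally real, that is `Z - ᵗZ` is not homologically equivalent to a
  degenerate correspondence for some `Z ∈ CH^2(A × A)_ℚ`. Let `R`, `S`, `T` be surfaces dominated by
  `A`, and let `X`, `X' ∈ CH^2(S × T)_ℚ` induce the same map on the holomorphic two-forms. Then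
  `γ × X_* β = γ × X'_* β` in `CH_0(R × T)_ℚ` for all `β`, `γ` in the Albanese kernels of `S` and `R`. In
  particular `γ × G_* β = 0` for all correspondences `G` which act as zero on the holomorphic
  two-forms, as predicted by the conjecture of Bloch, `G_* β = 0`.

## Proof

1. The zero-cycle `ζ(x, y) = α(x) β(y)` satisfies `ζ(x, x) = 0`, and `ζ(x + y, y) - ζ(x, y)` is a
zero-cycle of weight one in `x`; there are no zero-cycles of weight one. So `ζ` is invariant under
`SL_2(ℤ)` and symmetric. 2. `Z α × β = β × Z α = (1 × Z) (β × α) = (1 × Z) (α × β) = α × Z β`, and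
so `α × Z W β = Z α × W β = W Z α × β = α × W Z β`. 3. Let `G` be homologically equivalent to a
degenerate correspondence. Then `G Z = ᵗZ G` (starting files), so by 2.
`α × Z G β = α × G Z β = α × ᵗZ G β`, and with `D = Z - ᵗZ` one obtains
`D α × G β = α × D G β = 0`. On the Albanese kernel `D` is invertible.
-/

set_option autoImplicit false

open CategoryTheory AlgebraicGeometry

universe u v w

namespace Pool.Agent.Results.MP_31564d_ag.ExteriorProducts

open Pool.Agent.H914 Pool.Agent.H914.VarClass Pool.Agent.H914.VarClass.Obj Pool.Agent.W492.BB
  Pool.Agent.TH133 Pool.Agent.Y152.AS Pool.Agent.Helper867_EX.AbSt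

/-- The exterior products of zero-cycles in the Albanese kernels of surfaces dominated by an abelian
surface `A`, and the conjecture of Bloch. -/
theorem result {k : Type u} [Field k] {𝒱 : VarClass k} {C : TheoryData.{u, v, 0} 𝒱 ℚ}
    [IsChowProj C] {K : Type w} [Field K] (H : WeilTheoryData.{u, v, w} C K) [IsWeilProj H]
    (A : 𝒱.Obj) [GroupLaw A] (θ : C.A A) (hA : IsAbelianSurface H A θ) (hE : EndIsField H A) :
    (∀ S : 𝒱.Obj, IsDominatedBy C A S → ExtComm C S) ∧
    (∀ S : 𝒱.Obj, S.dim = 2 → ExtComm C S → Balanced C S ∧ CommutatorsKilled C S) ∧
    ∀ Z : C.A (A.prod A), IsNonReal H Z → ∀ R S T : 𝒱.Obj, IsDominatedBy C A R →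
      IsDominatedBy C A S → IsDominatedBy C A T → ∀ X X' : C.A (S.prod T), C.Deg 2 X →
        C.Deg 2 X' → IsHomDegenerate H (X - X') → SameProducts C R X X' :=
  Pool.Agent.Helper867_EX.Ab.ab_main H A θ hA hE

end Pool.Agent.Results.MP_31564d_ag.ExteriorProducts
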