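import Pool.Agent.Helper867_NR.Main

/-!
# Bloch's conjecture for correspondences which commute with a non-real one

Let `X` be a complex surface with `p_g = 1` which is dominated by an abelian surface `A`. Its
self-correspondences act on the line `H^{2,0}(X)` through a number field `E`, the endomorphism algebra
of the transcendental part of `H^2(X, ℚ)`, and the transposition of correspondences induces the
complex conjugation of `E` (the kernel of the action consists, by the theorem of Lefschetz, of the
correspondences which are homologically equivalent to degenerate ones; `EndIsField`). Suppose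
that `E` is a CM field, i.e. there is a self-correspondence `Z` which acts on `H^{2,0}(X)` by a
non-real number `λ`: `Z - ᵗZ` is not homologically equivalent to a degenerate correspondence. All
statements are about the actions on the Albanese kernel `F^2 = F^2 CH_0(X)_ℚ`.

**Theorem.** Let `Z` be any self-correspondence of `X` with `λ` not real.
1. Let `Γ` be a self-correspondence with `[Γ]^{2,0} = 0`. If `Γ` commutes with `Z` on `F^2`, then `Γ`
  acts as zero on `F^2`.
2. In particular the conjecture of Bloch holds for all polynomials in `Z`: if `P(λ) = 0` then `P(Z)`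
  acts as zero on `F^2`. (Nothing else is assumed about `Z`. By a known result only
  `P(Z)^2 = 0`.)
3. The conjecture of Bloch holds for all self-correspondences of `X` if and only if all of them
  commute with `Z` on `F^2`.
4. If `[Γ]^{2,0} = 0` then `Γ` is antilinear: `Γ Y = ᵗY Γ` on `F^2` for all self-correspondences `Y`.
5. Every self-correspondence `Y` has a linear part `Y₀`, which commutes on `F^2` with all
  antisymmetric correspondences `W - ᵗW` and acts on `H^{2,0}(X)` in the same way as `Y`. It is given by
  the formula `D Y₀ = (D Y + Y D) / 2` on `F^2`, `D = Z - ᵗZ`.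
6. The linear correspondences are closed under sums, compositions and transposition, they commute
  with each other on `F^2`, and they are invertible on `F^2` or act as zero on `F^2`, according to
  their action on `H^{2,0}(X)`. Hence `F^2` has a canonical structure of a vector space over the CM
  field `E`. Similitudes, for example the graphs of automorphisms and of rational self-maps, are
  linear, and so is `Z` if it is antisymmetric.
7. The elements `Y + ᵗY` of the maximal totally real subfield of `E`, `Y` linear, commute on `F^2` with
  all self-correspondences.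
-/

set_option autoImplicit false

open CategoryTheory AlgebraicGeometry

universe u v w

namespace Pool.Agent.Results.MP_31564d_ag.NonRealCorrespondences

open Pool.Agent.H914 Pool.Agent.H914.VarClass Pool.Agent.H914.VarClass.Obj Pool.Agent.W492.BB
  Pool.Agent.W550.Corr Pool.Agent.TH133 Pool.Agent.Y152.AS Pool.Agent.Helper867_NR

/-- Let `X` be a surface which is dominated by an abelian surface `A`, and let `Z` be a
self-correspondence of `X` such that `Z - ᵗZ` is not homologically equivalent to a degenerate
correspondence (over `ℂ`: `Z` acts on `H^{2,0}(X)` as a non-real number). The conjecture of Bloch for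
the self-correspondences of `X` which commute with `Z` on the Albanese kernel, and for
the polynomials in `Z`, and the linear parts of the self-correspondences. -/
theorem result {k : Type u} [Field k] {𝒱 : VarClass k} {C : TheoryData.{u, v, 0} 𝒱 ℚ}
    [IsChowProj C] {K : Type w} [Field K] (H : WeilTheoryData.{u, v, w} C K) [IsWeilProj H]
    (A : 𝒱.Obj) [GroupLaw A] (θ : C.A A) (hA : IsAbelianSurface H A θ)
    (X : 𝒱.Obj) (hX : IsDominatedBy C A X) (hE : EndIsField H X)
    (Z : C.A (X.prod X)) (hZ : C.Deg 2 Z) (nonreal : ¬ IsHomDegenerate H (antisym C Z)) :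
    -- 1. the conjecture of Bloch for the correspondences which commute with `Z`
    (∀ Γ : C.A (X.prod X), C.Deg 2 Γ → Comm C Γ Z → Bloch H Γ) ∧
    -- 2. for the polynomials in `Z`
    (∀ P : Polynomial ℚ, Bloch H (poly C P Z)) ∧
    -- 3. for all self-correspondences
    ((∀ Γ : C.A (X.prod X), C.Deg 2 Γ → Bloch H Γ) ↔
      ∀ Y : C.A (X.prod X), C.Deg 2 Y → Comm C Y Z) ∧
    -- 4. antilinearity
    (∀ Γ Y : C.A (X.prod X), C.Deg 2 Γ → IsHomDegenerate H Γ → C.Deg 2 Y →
      Same C (C.comp Y Γ) (C.comp Γ (tp C Y))) ∧
    -- 5. the linear part
    (∀ Y : C.A (X.prod X), C.Deg 2 Y → ∃ Y₀, IsLinear C Y₀ ∧ Near H Y Y₀ ∧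
      IsMean (antisym C Z) Y Y₀) ∧
    -- 6., 7. the field of the linear correspondences
    LinearAlgebra C X ∧ (∀ Y : C.A (X.prod X), IsLinear C Y → ZeroOrInvertible H Y) ∧
    ∀ Y : C.A (X.prod X), IsSimilitude C Y → IsLinear C Y := by
  obtain ⟨hd, b, N, hb, hN, hdom⟩ := hX
  have c : Ctx hd H Z := ⟨setup hA hd b hb hN (fun α hα => hdom α (inAlbKer_iff.2 hα))
    hE.fieldMod, hE, hZ, nonreal⟩
  exact ⟨fun Γ hΓ hc hΓd => c.kills hΓ hΓd hc, c.poly_kills, c.iff,
    fun Γ Y hΓ hΓd hY => c.anti hΓ hΓd hY, fun Y hY => c.exists_linear hY, c.field,
    fun Y hY => c.dichotomy hY, fun Y hY => c.similitude hY⟩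

end Pool.Agent.Results.MP_31564d_ag.NonRealCorrespondences
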